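import Pool.Agent.D0H54.NS.Stm

set_option autoImplicit false

/-!
# Project NS, module PRIM: primitive vectors with positive last coordinate in lines
-/

namespace Pool.Agent.D0H62.NS

open Finset Pool.Agent.D0H54.NS

/-- Two primitive vectors with positive last coordinate on a line are equal. -/
theorem prim_eq {n : ℕ} (v w : (Fin (n + 1) → ℤ) × ℤ)
    (hv : 0 < v.2) (hw : 0 < w.2)
    (pv : ∀ d : ℤ, (∀ j, d ∣ v.1 j) → d ∣ v.2 → IsUnit d)
    (pw : ∀ d : ℤ, (∀ j, d ∣ w.1 j) → d ∣ w.2 → IsUnit d)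
    (h : ∀ j, v.1 j * w.2 = w.1 j * v.2) : v = w := by
  -- v.2 divides w.2
  have key : ∀ v w : (Fin (n + 1) → ℤ) × ℤ, 0 < v.2 → 0 < w.2 →
      (∀ d : ℤ, (∀ j, d ∣ v.1 j) → d ∣ v.2 → IsUnit d) →
      (∀ j, v.1 j * w.2 = w.1 j * v.2) → v.2 ∣ w.2 := by
    intro v w hv hw pv h
    set g : ℤ := (Int.gcd v.2 w.2 : ℤ) with hg
    have hg0 : 0 < g := by
      rw [hg]
      exact_mod_cast Int.gcd_pos_of_ne_zero_left _ hv.ne'
    obtain ⟨a, ha⟩ : g ∣ v.2 := Int.gcd_dvd_left ..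
    obtain ⟨b, hb⟩ : g ∣ w.2 := Int.gcd_dvd_right ..
    have hab : IsCoprime a b := by
      have : Int.gcd a b = 1 := by
        have h1 : Int.gcd v.2 w.2 = g.natAbs * Int.gcd a b := by
          conv_lhs => rw [ha, hb]
          rw [Int.gcd_mul_left]
        have h2 : g.natAbs = Int.gcd v.2 w.2 := by rw [hg]; simp
        rw [h2] at h1
        have h3 : 0 < Int.gcd v.2 w.2 := Int.gcd_pos_of_ne_zero_left _ hv.ne'
        exact (Nat.eq_of_mul_eq_mul_left h3 (by rw [mul_one]; exact h1)).symm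
      exact Int.isCoprime_iff_gcd_eq_one.2 this
    -- a divides every v.1 j
    have hdiv : ∀ j, a ∣ v.1 j := by
      intro j
      have h1 := h j
      rw [ha, hb] at h1
      have h2 : v.1 j * b = w.1 j * a := by
        have : g * (v.1 j * b) = g * (w.1 j * a) := by linear_combination h1
        exact mul_left_cancel₀ hg0.ne' this
      exact hab.dvd_of_dvd_mul_right (by rw [h2]; exact Dvd.intro_left _ rfl)
    have hu := pv a hdiv (by rw [ha]; exact Dvd.intro_left _ rfl)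
    have ha0 : 0 < a := by
      by_contra hc
      have : v.2 ≤ 0 := by rw [ha]; exact mul_nonpos_of_nonneg_of_nonpos hg0.le (not_lt.1 hc)
      omega
    have ha1 : a = 1 := by
      rcases Int.isUnit_iff.1 hu with h | h <;> omega
    rw [ha, ha1, mul_one]
    exact ⟨b, hb⟩
  have h1 := key v w hv hw pv h
  have h2 := key w v hw hv pw (fun j => (h j).symm)
  have h3 : v.2 = w.2 := Int.dvd_antisymm hv.le hw.le h1 h2
  refine Prod.ext ?_ h3
  funext j
  have := h j
  rw [h3] at this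
  exact mul_right_cancel₀ hw.ne' this

theorem prim (n : ℕ) (T : Finset (Submodule ℚ ((Fin (n + 1) → ℚ) × (Fin 1 → ℚ)))) (hT : ∀ W ∈ T, Module.finrank ℚ W ≤ 1)
    (S : Set ((Fin (n + 1) → ℤ) × ℤ)) (hS : ∀ v ∈ S, 0 < v.2 ∧ (∀ d : ℤ, (∀ j, d ∣ v.1 j) → d ∣ v.2 → IsUnit d) ∧
      ∃ W ∈ T, toQ v.1 v.2 ∈ W) : S.Finite ∧ S.ncard ≤ T.card := by
  classical
  choose! W hWT hW using fun v hv => (hS v hv).2.2
  have hinj : Set.InjOn W S := by
    intro v hv w hw hvw
    have h1 : toQ v.1 v.2 ∈ W v := hW v hv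
    have h2 : toQ w.1 w.2 ∈ W v := by rw [hvw]; exact hW w hw
    have hr := hT _ (hWT v hv)
    have hne : (⟨toQ w.1 w.2, h2⟩ : W v) ≠ 0 := by
      intro h
      have h3 : toQ w.1 w.2 = 0 := congrArg Subtype.val h
      have h4 : (w.2 : ℚ) = 0 := congrFun (congrArg Prod.snd h3) 0
      have h5 := (hS w hw).1
      have : w.2 = 0 := by exact_mod_cast h4
      omega
    have hr1 : Module.finrank ℚ (W v) = 1 := by
      have : 0 < Module.finrank ℚ (W v) := Module.finrank_pos_iff_exists_ne_zero.2 ⟨_, hne⟩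
      omega
    obtain ⟨c, hc⟩ := (finrank_eq_one_iff_of_nonzero' _ hne).1 hr1 ⟨toQ v.1 v.2, h1⟩
    have hc' : c • toQ w.1 w.2 = toQ v.1 v.2 := congrArg Subtype.val hc
    have e1 : ∀ j, c * (w.1 j : ℚ) = (v.1 j : ℚ) := fun j => congrFun (congrArg Prod.fst hc') j
    have e2 : c * (w.2 : ℚ) = (v.2 : ℚ) := congrFun (congrArg Prod.snd hc') 0
    refine prim_eq v w (hS v hv).1 (hS w hw).1 (hS v hv).2.1 (hS w hw).2.1 fun j => ?_
    have : (v.1 j : ℚ) * w.2 = w.1 j * v.2 := by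
      rw [← e1 j, ← e2]; ring
    exact_mod_cast this
  have hmaps : Set.MapsTo W S (T : Set (Submodule ℚ ((Fin (n + 1) → ℚ) × (Fin 1 → ℚ)))) := fun v hv => hWT v hv
  have hfin : S.Finite := Set.Finite.of_injOn hmaps hinj T.finite_toSet
  refine ⟨hfin, ?_⟩
  have := Set.ncard_le_ncard_of_injOn W hmaps hinj T.finite_toSet
  rwa [Set.ncard_coe_finset] at this

theorem t_PRIM : Pool.Agent.D0H54.NS.S_PRIM := fun n T hT S hS => prim n T hT S hS

end Pool.Agent.D0H62.NS
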